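import Pool.Agent.Run7.h723.OG.Iface2

set_option autoImplicit false

namespace Pool.Agent.Run7.h331.OG

open Pool.H723.OG

open Classical in
/-- degrees in the complement -/
theorem t_DC : S_DC := by
  intro V _ _ G v
  have h1 : dg Gᶜ v = (Finset.univ.filter (fun u => ¬ G.Adj u v ∧ u ≠ v)).card := by
    unfold dg
    congr 1
    ext u
    simp only [Finset.mem_filter, Finset.mem_univ, true_and, SimpleGraph.compl_adj]
    tauto
  have h2 : (Finset.univ : Finset V) =
      insert v ((Finset.univ.filter (fun u => ¬ G.Adj u v ∧ u ≠ v)) ∪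
        (Finset.univ.filter (fun u => G.Adj u v))) := by
    ext u
    simp only [Finset.mem_univ, Finset.mem_insert, Finset.mem_union, Finset.mem_filter, true_and,
      true_iff]
    tauto
  have hd : Disjoint (Finset.univ.filter (fun u => ¬ G.Adj u v ∧ u ≠ v))
      (Finset.univ.filter (fun u => G.Adj u v)) := by
    rw [Finset.disjoint_left]
    intro u hu hu'
    simp only [Finset.mem_filter, Finset.mem_univ, true_and] at hu hu'
    exact hu.1 hu'
  have hv : v ∉ ((Finset.univ.filter (fun u => ¬ G.Adj u v ∧ u ≠ v)) ∪
        (Finset.univ.filter (fun u => G.Adj u v))) := by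
    simp only [Finset.mem_union, Finset.mem_filter, Finset.mem_univ, true_and, not_or]
    refine ⟨fun h => h.2 rfl, fun h => h.ne rfl⟩
  rw [h1]
  unfold dg
  have h3 : Fintype.card V = (Finset.univ : Finset V).card := rfl
  rw [h3]
  conv_rhs => rw [h2]
  rw [Finset.card_insert_of_notMem hv, Finset.card_union_of_disjoint hd]

end Pool.Agent.Run7.h331.OG
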